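import Pool.Agent.MWH.StmtsB

set_option autoImplicit false

namespace Pool.Agent.MWH.H77

open Pool.Agent.Helper14_MV Pool.Agent.Helper2_MV Pool.Agent.MVO Pool.Agent.MWL Pool.Agent.MWS

theorem all3 {β : FIC} {k : ℕ} {a b : ℕ → ℕ} {i : ℕ} (h1 : Tr β k a b i Stt.xy Stt.ov)
    (h2 : Tr β k a b i Stt.yx Stt.ov) : TrA β k a b i := by
  have ho : ∀ s : Stt, Tr β k a b i s Stt.ov := by
    intro s
    cases s with
    | xy => exact h1
    | yx => exact h2
    | ov => exact RR.refl _
  intro s s' _ _
  exact β.trans (ho s) (β.symm (ho s'))

theorem lhl (hS : SwtStmt) (hP : PinStmt) : LhlStmt := by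
  intro β h k a b i p hV ha hb hp hap
  have hle : β ≤ β := fun _ _ h => h
  have hbi1 : ¬ b i = 1 := by omega
  have h1 : Tr β k a b i Stt.xy Stt.ov := by
    have h4 : Tr β 1 (vc [1, 1]) (vc [0, 2]) 1 Stt.xy Stt.ov := h.k4
    refine hP β β h.toBaseH hle 1 k (fun j => if j = 0 then p else i) (vc [1, 1]) (vc [0, 2]) a b 1
      ?_ ?_ ?_ hV ?_ ?_ ?_ Stt.xy Stt.ov ?_ ?_ h4
    · intro j hj
      have : j = 0 := by omega
      subst this
      exact hp
    · exact hV.ik
    · refine ⟨le_rfl, by decide, by decide, ?_, by decide, by decide⟩
      intro j hj hj1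
      have : j = 0 := by omega
      subst this
      exact Or.inr rfl
    · intro j hj
      rcases Nat.lt_or_ge j 1 with h0 | h0
      · have : j = 0 := by omega
        subst this
        exact ⟨fun _ => hap, fun h => absurd h (by decide), fun h => absurd rfl h,
          fun h => absurd h (by decide)⟩
      · have : j = 1 := by omega
        subst this
        exact ⟨fun _ => hV.ai, fun h => absurd h (by decide), fun _ => hV.bi, fun _ => hb⟩
    · exact ⟨fun _ => ha, fun _ => rfl⟩
    · exact ⟨fun h => absurd h (by decide), fun h => absurd h hbi1⟩
    · intro h; cases h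
    · intro _; right; decide
  obtain ⟨hV', hS'⟩ := hS β β h.toBaseH hle k b a i (hS β β h.toBaseH hle k a b i hV).1
  have hVba := (hS β β h.toBaseH hle k a b i hV).1
  refine ⟨h1, ?_, ?_⟩
  · rintro ⟨m, him, hmk, hbm⟩
    have h5 : Tr β 2 (vc [0, 2, 2]) (vc [1, 1, 0]) 1 Stt.xy Stt.ov := h.k5
    have h6 : Tr β k b a i Stt.xy Stt.ov := by
      refine hP β β h.toBaseH hle 2 k (fun j => if j = 0 then p else if j = 1 then i else m)
        (vc [0, 2, 2]) (vc [1, 1, 0]) b a 1 ?_ ?_ ?_ hVba ?_ ?_ ?_ Stt.xy Stt.ov ?_ ?_ h5
      · intro j hj
        rcases Nat.lt_or_ge j 1 with h0 | h0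
        · have : j = 0 := by omega
          subst this
          exact hp
        · have : j = 1 := by omega
          subst this
          exact him
      · exact hmk
      · refine ⟨by decide, by decide, by decide, ?_, by decide, by decide⟩
        intro j hj hj1
        rcases Nat.lt_or_ge j 1 with h0 | h0
        · have : j = 0 := by omega
          subst this
          exact Or.inl rfl
        · have : j = 2 := by omega
          subst this
          exact Or.inr rfl
      · intro j hj
        rcases Nat.lt_or_ge j 1 with h0 | h0
        · have : j = 0 := by omega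
          subst this
          exact ⟨fun h => absurd rfl h, fun h => absurd h (by decide), fun _ => hap,
            fun h => absurd h (by decide)⟩
        · rcases Nat.lt_or_ge j 2 with h0 | h0
          · have : j = 1 := by omega
            subst this
            exact ⟨fun _ => hV.bi, fun _ => hb, fun _ => hV.ai, fun h => absurd h (by decide)⟩
          · have : j = 2 := by omega
            subst this
            exact ⟨fun _ => (by show b m ≠ 0; omega), fun _ => hbm, fun h => absurd rfl h,
              fun h => absurd h (by decide)⟩
      · exact ⟨fun h => absurd h (by decide), fun h => absurd h hbi1⟩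
      · exact ⟨fun _ => ha, fun _ => rfl⟩
      · intro h; cases h
      · intro _; left; decide
    have h7 := ((hS' Stt.xy Stt.ov (by intro h; cases h) (fun _ => Or.inl hb)).2).1 h6
    exact all3 h1 h7
  · rintro ⟨q, hqp, hbq⟩
    have h8 : Tr β 2 (vc [0, 1, 1]) (vc [2, 0, 2]) 2 Stt.xy Stt.yx := h.k8
    have h6 : Tr β k a b i Stt.xy Stt.yx := by
      refine hP β β h.toBaseH hle 2 k (fun j => if j = 0 then q else if j = 1 then p else i)
        (vc [0, 1, 1]) (vc [2, 0, 2]) a b 2 ?_ ?_ ?_ hV ?_ ?_ ?_ Stt.xy Stt.yx ?_ ?_ h8
      · intro j hj
        rcases Nat.lt_or_ge j 1 with h0 | h0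
        · have : j = 0 := by omega
          subst this
          exact hqp
        · have : j = 1 := by omega
          subst this
          exact hp
      · exact hV.ik
      · refine ⟨by decide, by decide, by decide, ?_, by decide, by decide⟩
        intro j hj hj1
        rcases Nat.lt_or_ge j 1 with h0 | h0
        · have : j = 0 := by omega
          subst this
          exact Or.inl rfl
        · have : j = 1 := by omega
          subst this
          exact Or.inr rfl
      · intro j hj
        rcases Nat.lt_or_ge j 1 with h0 | h0
        · have : j = 0 := by omega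
          subst this
          exact ⟨fun h => absurd rfl h, fun h => absurd h (by decide),
            fun _ => (by show b q ≠ 0; omega), fun _ => hbq⟩
        · rcases Nat.lt_or_ge j 2 with h0 | h0
          · have : j = 1 := by omega
            subst this
            exact ⟨fun _ => hap, fun h => absurd h (by decide), fun h => absurd rfl h,
              fun h => absurd h (by decide)⟩
          · have : j = 2 := by omega
            subst this
            exact ⟨fun _ => hV.ai, fun h => absurd h (by decide), fun _ => hV.bi, fun _ => hb⟩
      · exact ⟨fun _ => ha, fun _ => rfl⟩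
      · exact ⟨fun h => absurd h (by decide), fun h => absurd h hbi1⟩
      · intro h; cases h
      · intro h; cases h
    exact all3 h1 (β.trans (β.symm h6) h1)

end Pool.Agent.MWH.H77
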